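import Pool.Agent.helper98.LP5.Spec5

/-!
# MP_07c750 (quantum unique ergodicity), PROJECT LP, row FCH: the chain
-/

open scoped MatrixGroups ContDiff Topology UpperHalfPlane ComplexConjugate
open UpperHalfPlane MeasureTheory Filter Set

set_option autoImplicit false

namespace Pool.Agent.LP5

open Pool.Agent.RS
open Pool.Agent.MS (bq BB BA SF pf)
open Pool.Agent.HV (FW)
open Pool.Agent.EN (XG MG mkX mkM fl pr)
open Pool.Agent.ER (Low LowJ)
open Pool.Agent.LP (ee dX sX US nG DJ GD AR CO FF LFS FTR_stmt FUN_stmt COL_stmt)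

noncomputable section

/-- `FF` is monotone -/
theorem FCH5_mono (Γ : Subgroup SL(2, ℝ)) (μ : Measure (XG Γ)) (a η : ℝ) (G : ℕ) (E E' : Set (XG Γ)) [IsProbabilityMeasure μ] (hE : E ⊆ E') (h : FF Γ μ a η G E') : FF Γ μ a η G E := by
  intro δ hδ
  obtain ⟨C3, hC3, h1⟩ := h δ hδ
  refine ⟨C3, hC3, fun C1 Q hC1 hQ => ?_⟩
  obtain ⟨m0, h2⟩ := h1 C1 Q hC1 hQ
  refine ⟨m0, fun m hm => ?_⟩
  obtain ⟨Ψ, Ψa, Ψn, Ψl, hS, h01, hn, hl, hμ, hL⟩ := h2 m hm
  refine ⟨Ψ, Ψa, Ψn, Ψl, hS, h01, hn, hl, ?_, hL⟩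
  exact le_trans (measureReal_mono (diff_subset_diff_left hE)) hμ

/-- the numerical inequality of the step -/
theorem FCH5_num (a β η g κ : ℝ) (G : ℕ) (hκ : κ = 1 - 3 * a) (hκ0 : 0 < κ) (hg : g ≤ κ / 2) (hη : 8 * η ≤ κ / 8) (hG : 24 / (G : ℝ) ≤ κ / 8) :
    3 * a + β - 1 + 8 * η + 24 / (G : ℝ) < β - g := by
  linarith

theorem FCH5_proof (hFGD5 : FGD5_stmt) (hFTR : FTR_stmt) (hFUN : FUN_stmt) (hCOL : COL_stmt) : FCH5_stmt := by
  intro a h ha0 ha hh0 hh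
  obtain ⟨κ, hκ⟩ : ∃ κ : ℝ, κ = 1 - 3 * a := ⟨_, rfl⟩
  have hκ0 : 0 < κ := by rw [hκ]; linarith
  obtain ⟨g, hg⟩ : ∃ g : ℝ, g = min (κ / 2) (1 / 4) := ⟨_, rfl⟩
  have hg0 : 0 < g := by rw [hg]; exact lt_min (by linarith) (by norm_num)
  have hgκ : g ≤ κ / 2 := by rw [hg]; exact min_le_left _ _
  have hg4 : g ≤ 1 / 4 := by rw [hg]; exact min_le_right _ _
  obtain ⟨η, hη⟩ : ∃ η : ℝ, η = min (κ / 64) (min (1 / 16) (min ((1 - h) / 2) (1 / 2))) := ⟨_, rfl⟩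
  have hη0 : 0 < η := by
    rw [hη]
    exact lt_min (by linarith) (lt_min (by norm_num) (lt_min (by linarith) (by norm_num)))
  have hη1 : η ≤ κ / 64 := by rw [hη]; exact min_le_left _ _
  have hη2 : η ≤ 1 / 16 := by rw [hη]; exact le_trans (min_le_right _ _) (min_le_left _ _)
  have hη3 : η ≤ (1 - h) / 2 := by
    rw [hη]; exact le_trans (min_le_right _ _) (le_trans (min_le_right _ _) (min_le_left _ _))
  obtain ⟨M, hM⟩ : ∃ M : ℕ, 192 / κ ≤ (M : ℝ) := exists_nat_ge _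
  obtain ⟨G, hGdef⟩ : ∃ G : ℕ, G = 2 * (M + 1) := ⟨_, rfl⟩
  have hGeven : Even G := by rw [hGdef]; exact even_two_mul _
  have hG2 : 2 ≤ G := by omega
  have hGR : (192 : ℝ) / κ ≤ (G : ℝ) := by
    have h1 : (G : ℝ) = 2 * ((M : ℝ) + 1) := by rw [hGdef]; push_cast; ring
    have h2 : (0 : ℝ) ≤ (M : ℝ) := Nat.cast_nonneg _
    rw [h1]; linarith
  have hGpos : (0 : ℝ) < (G : ℝ) := by
    have h1 : 0 < G := by omega
    exact_mod_cast h1
  have hG6 : 24 / (G : ℝ) ≤ κ / 8 := by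
    rw [div_le_div_iff₀ hGpos (by norm_num)]
    have h1 : 192 ≤ (G : ℝ) * κ := (div_le_iff₀ hκ0).mp hGR
    linarith
  refine ⟨η, G, hη0, by omega, ?_⟩
  intro Γ μ E hΓ hμ hinv hCO
  haveI := hμ
  have key : ∀ k : ℕ, ∀ (β : ℝ) (E : Set (XG Γ)), 0 ≤ β → β ≤ h → β ≤ (1 - a - 3 * η) + k * g → CO Γ μ E β → FF Γ μ a η G E := by
    intro k
    induction k with
    | zero =>
      intro β E hβ0 hβh hβt hE
      have h1 : β ≤ 1 - a - 3 * η := by simpa using hβt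
      exact hFTR Γ μ E a η β G hΓ hμ hinv ha0 hη0 (by omega) (by linarith) hE
    | succ k ih =>
      intro β E hβ0 hβh hβt hE
      by_cases hc : β ≤ (1 - a - 3 * η) + k * g
      · exact ih β E hβ0 hβh hc hE
      · have hc' : (1 - a - 3 * η) + k * g < β := not_le.mp hc
        have hk : (0 : ℝ) ≤ (k : ℝ) * g := mul_nonneg (Nat.cast_nonneg _) hg0.le
        have hβg : 0 ≤ β - g := by linarith
        have hβt' : β ≤ (1 - a - 3 * η) + ((k : ℝ) + 1) * g := by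
          have h1 : ((k + 1 : ℕ) : ℝ) = (k : ℝ) + 1 := by push_cast; ring
          rw [h1] at hβt
          exact hβt
        have hF1 : FF Γ μ a η G (E \ Low Γ μ (β - g)) :=
          hFGD5 Γ μ E a η β (β - g) G hΓ hμ hinv ha0 (by linarith) hη0 (by linarith) (by linarith) hβg hGeven hG2
            (FCH5_num a β η g κ G hκ hκ0 hgκ (by linarith) hG6) hE
        have hF2 : FF Γ μ a η G (Low Γ μ (β - g)) :=
          ih (β - g) _ hβg (by linarith) (by nlinarith) (hCOL Γ μ (β - g) hΓ hμ hinv hβg)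
        refine FCH5_mono Γ μ a η G E _ ?_ (hFUN Γ μ _ _ a η G hμ hF1 hF2)
        intro x hx
        by_cases hxL : x ∈ Low Γ μ (β - g)
        · exact Or.inr hxL
        · exact Or.inl ⟨hx, hxL⟩
  obtain ⟨k, hk⟩ : ∃ k : ℕ, h / g ≤ (k : ℝ) := exists_nat_ge _
  have hk' : h ≤ (k : ℝ) * g := (div_le_iff₀ hg0).mp hk
  exact key k h E hh0 le_rfl (by linarith) hCO

end

end Pool.Agent.LP5
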