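import Pool.Agent.helper98.LP5.Spec5
import Pool.Agent.helper98.LP.FGD

/-!
# LP5: forward functions outside of the low entropy part
-/

open scoped MatrixGroups ContDiff Topology UpperHalfPlane ComplexConjugate
open UpperHalfPlane MeasureTheory Filter Set

set_option autoImplicit false

namespace Pool.Agent.LP5

open Pool.Agent.RS
open Pool.Agent.LP (WCO_stmt)

theorem FGD5_proof (hBXM : MS.BXM_stmt) (hSFP : IR.SFP_stmt) (hWCO : WCO_stmt) (hLOB : IR.LOB_stmt) (hLGD5 : LGD5_stmt) (hXFL : EN.XFL_stmt) (hGLC : RS.GLC_stmt) : FGD5_stmt := by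
  intro Γ μ E a η h β G hΓ hμ hinv ha ha2 hη haη hhη hβ hGe hG2 hexp hCO
  exact Pool.Agent.LP.FGD_core hBXM hSFP hWCO hLOB hXFL hGLC Γ μ E a η h β G hΓ hμ hinv hη hhη hβ hGe hG2
    (fun C1 b hC1 hb hb' => hLGD5 Γ hΓ C1 a η h β b G hC1 ha ha2 hη haη hG2 hb hb' hexp) hCO

end Pool.Agent.LP5
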