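import Pool.Agent.helper98.LP5.Spec5
import Pool.Agent.helper75.LP.LGD

/-!
# LP5: the leaf inequality for good leaves (the proof of helper75/LP/LGD.lean with `BAB5_stmt`)
-/

open scoped MatrixGroups ContDiff Topology UpperHalfPlane ComplexConjugate
open UpperHalfPlane MeasureTheory Filter Set

set_option autoImplicit false

namespace Pool.Agent.LP5

open Pool.Agent.RS
open Pool.Agent.MS (bq BB BA SF pf)
open Pool.Agent.HV (FW)
open Pool.Agent.EN (XG MG mkX mkM fl pr)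
open Pool.Agent.ER (Low LowJ)
open Pool.Agent.LP

noncomputable section

theorem LGD5_proof (hBAB : BAB5_stmt) (hMVU : MVU_stmt) (hMO2 : MO2_stmt) (hLCL : LCL_stmt) (hSBA : SBA_stmt) (hUZL : UZL_stmt) (hGLC : RS.GLC_stmt) : LGD5_stmt := by
  intro Γ hΓ C1 a η h β b G hC1 ha ha2 hη haη hG2 hb hb2 hβ
  obtain ⟨CU, hCU1, hU⟩ := hUZL Γ hΓ
  obtain ⟨CL, hCL1, hL⟩ := hLCL
  obtain ⟨C0, hC01, hS⟩ := hSBA
  obtain ⟨m0, hB⟩ := hBAB Γ hΓ C1 a η h β b G hC1 ha ha2 hη haη hG2 hb hb2 hβ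
  obtain ⟨_, _, _, _, _, _, _, _, _, _, haadd, _, hladd, _, _, _, _, _, hla, _⟩ := hGLC
  refine ⟨C0 * (2 * CL * CU), max m0 1, ?_, ?_⟩
  · have : 1 ≤ 2 * CL * CU := by nlinarith
    nlinarith
  intro m Au Ad hm hAu hAd
  have hm0 : m0 ≤ m := (le_max_left _ _).trans hm
  have hm1 : 1 ≤ m := (le_max_right _ _).trans hm
  obtain ⟨Ab, hAb, hgood⟩ := hB m Au Ad hm0 hAu
  refine ⟨Ab, hAb, ?_⟩
  intro g Y J c hYm hY01 hY hAR
  obtain ⟨hN1, hN2, hN3⟩ := LGD_nG G m
  obtain ⟨hH1, hH2, hH3⟩ := LGD_hG G m hG2 hm1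
  set E1 : ℝ := Real.exp ((h + η - 1) * m) with hE1
  set E2 : ℝ := Real.exp (-m) with hE2
  have hE1p : 0 < E1 := Real.exp_pos _
  have hE2p : 0 < E2 := Real.exp_pos _
  have hNp : (0 : ℝ) < nG G m := by exact_mod_cast hN1
  have hSp : 0 ≤ ∑ j ∈ J, ‖c j‖ ^ 2 := Finset.sum_nonneg fun j _ => by positivity
  have hmain : ∀ (cc : ℕ) (bb : ℤ → ℂ), cc < nG G m → ∫ v in Y ∩ Icc ((cc : ℝ) / nG G m) (((cc : ℝ) + 1) / nG G m), ‖∑ d ∈ J.image (fun j : ℤ => j / ((nG G m : ℕ) : ℤ)), bb d * ee (Real.pi * nG G m * d * v / 2)‖ ^ 2 ≤ (2 * CL * (CU * E1 + E2)) / nG G m * ∑ d ∈ J.image (fun j : ℤ => j / ((nG G m : ℕ) : ℤ)), ‖bb d‖ ^ 2 := by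
    intro cc bb _
    set D : Finset ℤ := J.image (fun j : ℤ => j / ((nG G m : ℕ) : ℤ)) with hD
    have hDS : 0 ≤ ∑ d ∈ D, ‖bb d‖ ^ 2 := Finset.sum_nonneg fun j _ => by positivity
    set S : Set ℝ := Y ∩ Icc ((cc : ℝ) / nG G m) (((cc : ℝ) + 1) / nG G m) with hSdef
    have hSm : MeasurableSet S := hYm.inter measurableSet_Icc
    rcases S.eq_empty_or_nonempty with hemp | ⟨v0, hv0⟩
    · rw [hemp, Measure.restrict_empty, integral_zero_measure]
      positivity
    set ε : ℝ := Real.exp (-(G * m)) with hε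
    have hεp : 0 < ε := Real.exp_pos _
    have hεe : Real.exp (G * m) * ε = 1 := by
      rw [hε, ← Real.exp_add, add_neg_cancel, Real.exp_zero]
    have hεN1 : 1 ≤ nG G m * ε := by
      calc (1 : ℝ) = Real.exp (G * m) * ε := hεe.symm
        _ ≤ nG G m * ε := mul_le_mul_of_nonneg_right hN2 hεp.le
    have hεN2 : nG G m * ε ≤ 2 := by
      calc nG G m * ε ≤ 2 * Real.exp (G * m) * ε := mul_le_mul_of_nonneg_right hN3 hεp.le
        _ = 2 := by rw [mul_assoc, hεe, mul_one]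
    -- the good coordinates of the base point
    obtain ⟨hv1, hv2, hv3⟩ := hY v0 hv0.1
    obtain ⟨z, γ, w, τ, x, hw, hτ, hx, hγ, hGD⟩ := hgood (g * lM v0 * aM (G * m)) (by
      rw [mul_assoc, ← haadd, add_neg_cancel]
      have ha0 : aM 0 = 1 := by
        have h1 := haadd 0 0
        rw [add_zero] at h1
        exact mul_left_cancel (a := aM 0) (by rw [mul_one]; exact h1.symm)
      rw [ha0, mul_one]
      exact hv1)
    set U : Set ℝ := US Γ Au Ad (64 * b) G m z with hUdef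
    obtain ⟨hUm, hU2, _, hUd⟩ := hU (64 * b) G m Au Ad z (by linarith) (by linarith)
    obtain ⟨hd0, hX0, hA0, _⟩ := hMO2 (b / 1000) w τ x 0 (by linarith) (by linarith) hw hτ hx (by norm_num)
    set d0 : ℝ := dX w τ x with hd0def
    set X : ℝ := sX w τ x with hXdef
    set A : ℝ := -(w * Real.exp (τ / 2) / d0) with hAdef
    set lam : ℝ := Real.pi * (nG G m * ε) / 2 with hlam
    have hπ3 : 3 < Real.pi := Real.pi_gt_three
    have hπ4 : Real.pi < 3.15 := Real.pi_lt_d2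
    have hlam1 : 1.5 ≤ lam := by
      rw [hlam]
      nlinarith
    have hlam2 : lam ≤ 3.15 := by
      rw [hlam]
      nlinarith
    have hd1 : |d0 - 1| ≤ 1 / 100 := hd0.trans (by linarith)
    have hd2 := abs_le.mp hd1
    have hd3 : 0.98 ≤ d0 ^ 2 := by nlinarith
    have hd4 : d0 ^ 2 ≤ 1.03 := by nlinarith
    have hd5 : 0 < d0 ^ 2 := by linarith
    have hc1 : 1 ≤ lam / d0 ^ 2 := by
      rw [le_div_iff₀ hd5]
      linarith
    have hc2 : lam / d0 ^ 2 ≤ 4 := by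
      rw [div_le_iff₀ hd5]
      linarith
    -- the set in the coordinate `V`
    set V' : Set ℝ := {V : ℝ | v0 + ε * V ∈ S} with hV'
    have hV'm : MeasurableSet V' := by
      have hm : Measurable fun V : ℝ => v0 + ε * V := by fun_prop
      exact hm hSm
    have hV'U : V' ⊆ (fun u : ℝ => A + mm X u / d0 ^ 2) '' U := by
      intro V hV
      have hVS : v0 + ε * V ∈ S := hV
      have hV1 : |V| ≤ 1 := by
        have h1 := hVS.2
        have h2 := hv0.2
        have e1 : ((cc : ℝ) + 1) / nG G m = (cc : ℝ) / nG G m + 1 / nG G m := by ring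
        have h3 : 1 / (nG G m : ℝ) ≤ ε := by
          rw [div_le_iff₀ hNp]
          linarith
        have h4 : |ε * V| ≤ ε := by
          rw [abs_le]
          obtain ⟨a1, a2⟩ := h1
          obtain ⟨b1, b2⟩ := h2
          constructor <;> linarith
        rw [abs_mul, abs_of_pos hεp] at h4
        by_contra hcon
        push Not at hcon
        nlinarith
      obtain ⟨_, k2, k3⟩ := hY (v0 + ε * V) hVS.1
      have e1 : lM (v0 + ε * V) * aM (G * m) = lM v0 * aM (G * m) * lM V := by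
        rw [hladd, mul_assoc, hla, ← mul_assoc (Real.exp (G * m)), hεe, one_mul, ← mul_assoc]
      have e2 : g * lM (v0 + ε * V) * aM (G * m) = g * lM v0 * aM (G * m) * lM V := by
        rw [mul_assoc, e1]
        simp only [mul_assoc]
      have e3 : g * lM (v0 + ε * V) * aM ((2 * (G : ℝ) - 1) * m) = g * lM v0 * aM (G * m) * lM V * aM (((G : ℝ) - 1) * m) := by
        rw [← e2, mul_assoc (g * lM (v0 + ε * V)), ← haadd]
        ring_nf
      rw [e2] at k2
      rw [e3] at k3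
      obtain ⟨u, hu, hVu⟩ := hMVU Γ (16 * b) w τ x V G m Au Ad (g * lM v0 * aM (G * m)) z γ (by linarith) (by linarith) (by omega) (by linarith) (by linarith) (by linarith) hV1 hγ k2 k3
      have e4 : 4 * (16 * b) = 64 * b := by ring
      rw [e4] at hu
      exact ⟨u, hu, hVu.symm⟩
    -- the density
    set ϑ : ℝ := 2 * (hG G m : ℝ) * (CU * Ad.card * ε) with hϑ
    have hHp : (0 : ℝ) < 2 * (hG G m : ℝ) := by
      have : (1 : ℝ) ≤ hG G m := by exact_mod_cast hH1
      linarith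
    have hdens : ∀ y : ℝ, volume.real (U ∩ Icc y (y + 1 / ((2 * hG G m : ℕ) : ℝ))) ≤ ϑ / ((2 * hG G m : ℕ) : ℝ) := by
      intro y
      have e1 : ((2 * hG G m : ℕ) : ℝ) = 2 * (hG G m : ℝ) := by push_cast; ring
      rw [e1, hϑ, mul_div_cancel_left₀ _ hHp.ne']
      refine le_trans ?_ (hUd y)
      refine measureReal_mono ?_ ?_
      · refine inter_subset_inter_right _ (Icc_subset_Icc_right ?_)
        have hEp : 0 < Real.exp (((G : ℝ) - 1) * m) := Real.exp_pos _
        have h1 : Real.exp (-(((G : ℝ) - 1) * m)) * Real.exp (((G : ℝ) - 1) * m) = 1 := by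
          rw [← Real.exp_add, neg_add_cancel, Real.exp_zero]
        have hEn : 0 < Real.exp (-(((G : ℝ) - 1) * m)) := Real.exp_pos _
        have h2 : 1 / (2 * (hG G m : ℝ)) ≤ 3 * Real.exp (-(((G : ℝ) - 1) * m)) := by
          rw [div_le_iff₀ hHp]
          nlinarith
        linarith
      · exact ne_top_of_le_ne_top (measure_Icc_lt_top (μ := volume)).ne (measure_mono (inter_subset_right (s := U)))
    have hϑ1 : ϑ ≤ CU * E1 := by
      have h1 : 2 * (hG G m : ℝ) * ((Ad.card : ℝ) * ε) ≤ Real.exp (((G : ℝ) - 1) * m) * (Real.exp ((h + η) * m) * ε) := by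
        gcongr
      have h2 : Real.exp (((G : ℝ) - 1) * m) * (Real.exp ((h + η) * m) * ε) = E1 := by
        rw [hε, hE1, ← Real.exp_add, ← Real.exp_add]
        congr 1
        ring
      calc ϑ = CU * (2 * (hG G m : ℝ) * ((Ad.card : ℝ) * ε)) := by rw [hϑ]; ring
        _ ≤ CU * E1 := by
            rw [← h2]
            exact mul_le_mul_of_nonneg_left h1 (by linarith)
    -- the local inequality
    have hloc := hL (hG G m) ϑ lam E2 X d0 A U V' D hH1 (by linarith) (by linarith) hUm hU2 (hX0.trans (by linarith)) hd1 (by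
      rw [hAdef, abs_neg]
      exact hA0.trans (by linarith)) hdens hV'm hV'U hE2p.le (fun d hd => hGD D (lam / d0 ^ 2) hAR hc1 hc2 d hd) (fun d => bb d * ee (Real.pi * nG G m * d * v0 / 2))
    rw [LGD_sub S hSm (fun v => ‖∑ d ∈ D, bb d * ee (Real.pi * nG G m * d * v / 2)‖ ^ 2) v0 ε hεp]
    have hcong : ∀ V : ℝ, ∑ d ∈ D, bb d * ee (Real.pi * nG G m * d * (v0 + ε * V) / 2) = ∑ d ∈ D, bb d * ee (Real.pi * nG G m * d * v0 / 2) * ee (lam * d * V) := by
      intro V
      refine Finset.sum_congr rfl fun d _ => ?_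
      have e : ee (Real.pi * nG G m * d * (v0 + ε * V) / 2) = ee (Real.pi * nG G m * d * v0 / 2) * ee (lam * d * V) := by
        rw [← LGD_ee_add, hlam]
        congr 1
        ring
      rw [e, ← mul_assoc]
    have hI : ∫ V in V', ‖∑ d ∈ D, bb d * ee (Real.pi * nG G m * d * (v0 + ε * V) / 2)‖ ^ 2 ≤ CL * (ϑ + E2) * ∑ d ∈ D, ‖bb d‖ ^ 2 := by
      simp only [hcong]
      refine hloc.trans (le_of_eq ?_)
      congr 1
      refine Finset.sum_congr rfl fun d _ => ?_
      rw [norm_mul, LGD_ee_norm, mul_one]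
    have hI2 : ∫ V in V', ‖∑ d ∈ D, bb d * ee (Real.pi * nG G m * d * (v0 + ε * V) / 2)‖ ^ 2 ≤ CL * (CU * E1 + E2) * ∑ d ∈ D, ‖bb d‖ ^ 2 := by
      refine hI.trans ?_
      gcongr
    have hε2 : ε ≤ 2 / nG G m := by
      rw [le_div_iff₀ hNp]
      linarith
    calc ε * ∫ V in V', ‖∑ d ∈ D, bb d * ee (Real.pi * nG G m * d * (v0 + ε * V) / 2)‖ ^ 2
        ≤ ε * (CL * (CU * E1 + E2) * ∑ d ∈ D, ‖bb d‖ ^ 2) := mul_le_mul_of_nonneg_left hI2 hεp.le
      _ ≤ 2 / nG G m * (CL * (CU * E1 + E2) * ∑ d ∈ D, ‖bb d‖ ^ 2) := by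
          refine mul_le_mul_of_nonneg_right hε2 ?_
          positivity
      _ = (2 * CL * (CU * E1 + E2)) / nG G m * ∑ d ∈ D, ‖bb d‖ ^ 2 := by ring
  have hfin := hS (nG G m) Y J (2 * CL * (CU * E1 + E2)) hN1 hYm hY01 (by positivity) hmain c
  refine hfin.trans ?_
  have h1 : C0 * (2 * CL * (CU * E1 + E2)) ≤ C0 * (2 * CL * CU) * (E1 + E2) := by
    have h2 : CU * E1 + E2 ≤ CU * (E1 + E2) := by nlinarith
    calc C0 * (2 * CL * (CU * E1 + E2)) = C0 * (2 * CL) * (CU * E1 + E2) := by ring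
      _ ≤ C0 * (2 * CL) * (CU * (E1 + E2)) := mul_le_mul_of_nonneg_left h2 (by positivity)
      _ = C0 * (2 * CL * CU) * (E1 + E2) := by ring
  exact mul_le_mul_of_nonneg_right h1 hSp

end

end Pool.Agent.LP5
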