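import Pool.Agent.helper98.LP5.Spec5
import Pool.Agent.helper52.IR.IRM

/-! LP5 (MP_07c750_an): the theorem for a measure with the property GP (the proof of helper59/LP/LPM.lean with `FCH5_stmt`). -/

set_option autoImplicit false

open scoped MatrixGroups ContDiff Topology UpperHalfPlane ComplexConjugate
open UpperHalfPlane MeasureTheory Filter Set

namespace Pool.Agent.LP5

open Pool.Agent.RS
open Pool.Agent.MS (bq BB BA SF pf)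
open Pool.Agent.HV (FW)
open Pool.Agent.EN (XG MG mkX mkM fl pr)
open Pool.Agent.ER (Low LowJ)
open Pool.Agent.LP (ee dX sX US nG DJ GD AR CO FF LFS BKA_stmt)

theorem LPM5_key (hFCH5 : FCH5_stmt) (hBKA : Pool.Agent.LP.BKA_stmt) (Γ : Subgroup SL(2, ℝ)) (μ : Measure (XG Γ)) (K a h : ℝ) (E : Set (XG Γ))
    (hΓ : QU.SurfaceGroup Γ) (hμ : IsProbabilityMeasure μ) (hfl : ∀ t, μ.map (fl Γ t) = μ) (hK : 1 ≤ K) (H : IR.GP Γ μ K)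
    (ha0 : 0 ≤ a) (ha : a < 1 / 3) (hh0 : 0 ≤ h) (hh1 : h < 1) (hE : CO Γ μ E h)
    (e : ℝ) (he : 0 < e) (he1 : e ≤ 1) : μ.real E + μ.real (Low Γ μ a) ≤ 1 + 3 * e := by
  classical
  obtain ⟨η, G, hη, hG, hF⟩ := hFCH5 a h ha0 ha hh0 hh1
  obtain ⟨C3, hC3, HF⟩ := hF Γ μ E hΓ hμ hfl hE e he
  obtain ⟨δ, hδ⟩ : ∃ δ, δ = (e / 200) ^ 2 := ⟨_, rfl⟩
  have hδ0 : 0 < δ := by rw [hδ]; positivity
  have hδ1 : δ ≤ 1 / 40000 := by rw [hδ]; nlinarith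
  obtain ⟨Λ2, hΛ⟩ : ∃ Λ2, Λ2 = 4 * K * C3 / δ := ⟨_, rfl⟩
  have hKC : 1 ≤ K * C3 := by nlinarith
  have hΛ1 : 10 ≤ Λ2 := by
    rw [hΛ, le_div_iff₀ hδ0]
    nlinarith
  obtain ⟨C1, m1, hC1, HB⟩ := hBKA Γ μ a hΓ hμ hfl ha0 Λ2 η e G hΛ1 hη he hG
  obtain ⟨m2, HF2⟩ := HF C1 (δ ^ 2 / 128) hC1 (by positivity)
  obtain ⟨m, hm⟩ : ∃ m, m = max m1 m2 := ⟨_, rfl⟩
  have e1 : m1 ≤ m := by rw [hm]; exact le_max_left _ _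
  have e2 : m2 ≤ m := by rw [hm]; exact le_max_right _ _
  obtain ⟨εc, hεc⟩ : ∃ εc : ℝ, εc = Real.pi / (2 * Λ2) * Real.exp (-(2 * ((G : ℝ) * (m : ℝ)))) := ⟨_, rfl⟩
  have hpi := Real.pi_pos
  have hεc0 : 0 < εc := by rw [hεc]; positivity
  obtain ⟨Ψ, Ψa, Ψn, Ψl, hSF, hΨ1, hΨn, hΨl, hΨm, hΨY⟩ := HF2 m e2
  obtain ⟨Ψ', Ψa', Ψn', Ψl', B, hSF', hΨ'1, hΨ'n, hΨ'l, hΨ'm, hΨ'J⟩ := HB m εc e1 hεc
  have hcast : (((2 * (G * m) : ℕ)) : ℝ) = 2 * ((G : ℝ) * (m : ℝ)) := by push_cast; ring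
  have hL0 : εc = Real.pi / (4 * (2 * K * (C3 * Real.exp ((2 * (G * m) : ℕ) : ℝ)) / δ)) := by
    rw [hεc, hΛ, hcast, Real.exp_neg]
    have h3 : 0 < Real.exp (2 * ((G : ℝ) * (m : ℝ))) := Real.exp_pos _
    field_simp
  have hmain := H e C3 δ _ εc B (εc / 100) (2 * (G * m)) Ψ Ψa Ψn Ψl Ψ' Ψa' Ψn' Ψl' he he1 hC3 hδ0 hδ.le rfl hL0 (by positivity)
    hSF hSF' hΨ1 hΨ'1 hΨn (fun g => by rw [hcast]; exact hΨl g) hΨ'n hΨ'l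
    (by
      rw [hcast]
      intro l g g' J cj hl hl0 hJ
      exact hΨY g' J cj (hΨ'J l (εc / 100) g J hl hl0 le_rfl hJ))
  have hm1 := IR.IRM_mass Γ μ _ _ _ hΨm
  have hm2 := IR.IRM_mass Γ μ _ _ _ hΨ'm
  linarith

theorem LPM5_proof (hFCH5 : FCH5_stmt) (hBKA : Pool.Agent.LP.BKA_stmt) : LPM5_stmt := by
  intro Γ μ K a h E hΓ hμ hfl hK H ha0 ha hh0 hh1 hE
  by_contra hcon
  push Not at hcon
  obtain ⟨t, ht⟩ : ∃ t, t = μ.real E + μ.real (Low Γ μ a) - 1 := ⟨_, rfl⟩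
  have ht0 : 0 < t := by rw [ht]; linarith
  have h3 := LPM5_key hFCH5 hBKA Γ μ K a h E hΓ hμ hfl hK H ha0 ha hh0 hh1 hE (min (t / 6) 1) (lt_min (by linarith) one_pos) (min_le_right _ _)
  have h4 : min (t / 6) 1 ≤ t / 6 := min_le_left _ _
  linarith

end Pool.Agent.LP5
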