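import Pool.Agent.helper17.LQ.SpecQ2
import Pool.Agent.helper84.LP.SpecG

/-!
# MP_07c750, PROJECT LP5 (helper98): the geometry of PROJECT LP with the L⁴ lemma `BB5_stmt` in place of `BBC_stmt`

`F(h) + F(a) ≤ 1` for all `a < 1/3` and all `h < 1`. The statements are those of `Pool.Agent.LP` (SpecG) with the condition `3 * a + h - 1 + 8 * η + 24 / G < β` on the exponents.
-/

open scoped MatrixGroups ContDiff Topology UpperHalfPlane ComplexConjugate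
open UpperHalfPlane MeasureTheory Filter Set

set_option autoImplicit false

namespace Pool.Agent.LP5

open Pool.Agent.RS
open Pool.Agent.MS (bq BB BA SF pf)
open Pool.Agent.HV (FW)
open Pool.Agent.EN (XG MG mkX mkM fl pr)
open Pool.Agent.ER (Low LowJ)
open Pool.Agent.LP (ee dX sX US nG DJ GD AR CO FF LFS BB5_stmt)

noncomputable section

/-- the bad boxes (BAB with BB5) -/
def BAB5_stmt : Prop := ∀ Γ : Subgroup SL(2, ℝ), QU.SurfaceGroup Γ → ∀ (C1 a η h β b : ℝ) (G : ℕ), 1 ≤ C1 → 0 ≤ a → a < 1 / 2 → 0 < η → a + η ≤ 1 → 2 ≤ G → 0 < b → b ≤ 1 / 6400 → 3 * a + h - 1 + 8 * η + 24 / (G : ℝ) < β →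
  ∃ m0 : ℕ, ∀ (m : ℕ) (Au Ad : Finset SL(2, ℝ)), m0 ≤ m → (Au.card : ℝ) ≤ Real.exp ((h + η) * (G * m)) →
    ∃ Ab : Finset SL(2, ℝ), (Ab.card : ℝ) ≤ Real.exp (β * (G * m)) ∧ ∀ h0 : SL(2, ℝ), h0 * aM (-(G * m)) ∉ FW Γ Ab b (Real.exp (-(G * m))) →
      ∃ (z : SL(2, ℝ)) (γ : Γ) (w τ x : ℝ), |w| ≤ b / 1000 ∧ |τ| ≤ b / 1000 ∧ |x| ≤ b / 1000 ∧ (γ : SL(2, ℝ)) * h0 = z * lM w * aM τ * nM x ∧ GD (US Γ Au Ad (64 * b) G m z) C1 a η G m (sX w τ x)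

/-- the leaf inequality for good leaves (LGD with BAB5) -/
def LGD5_stmt : Prop := ∀ Γ : Subgroup SL(2, ℝ), QU.SurfaceGroup Γ → ∀ (C1 a η h β b : ℝ) (G : ℕ), 1 ≤ C1 → 0 ≤ a → a < 1 / 2 → 0 < η → a + η ≤ 1 → 2 ≤ G → 0 < b → b ≤ 1 / 6400 → 3 * a + h - 1 + 8 * η + 24 / (G : ℝ) < β →
  ∃ (C : ℝ) (m0 : ℕ), 1 ≤ C ∧ ∀ (m : ℕ) (Au Ad : Finset SL(2, ℝ)), m0 ≤ m → (Au.card : ℝ) ≤ Real.exp ((h + η) * (G * m)) → (Ad.card : ℝ) ≤ Real.exp ((h + η) * m) →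
    ∃ Ab : Finset SL(2, ℝ), (Ab.card : ℝ) ≤ Real.exp (β * (G * m)) ∧ ∀ (g : SL(2, ℝ)) (Y : Set ℝ) (J : Finset ℤ) (c : ℤ → ℂ), MeasurableSet Y → Y ⊆ Icc (0 : ℝ) 1 →
      (∀ v ∈ Y, g * lM v ∉ FW Γ Ab b (Real.exp (-(G * m))) ∧ g * lM v * aM (G * m) ∈ FW Γ Au (16 * b) (Real.exp (-(G * m))) ∧ g * lM v * aM ((2 * (G : ℝ) - 1) * m) ∈ FW Γ Ad (16 * b) (Real.exp (-m))) →
      AR C1 a η G m (DJ G m J) →
        ∫ v in Y, ‖∑ j ∈ J, c j * ee (Real.pi * j * v / 2)‖ ^ 2 ≤ C * (Real.exp ((h + η - 1) * m) + Real.exp (-m)) * ∑ j ∈ J, ‖c j‖ ^ 2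

/-- forward functions outside of the low entropy part (FGD with LGD5) -/
def FGD5_stmt : Prop := ∀ (Γ : Subgroup SL(2, ℝ)) (μ : Measure (XG Γ)) (E : Set (XG Γ)) (a η h β : ℝ) (G : ℕ), QU.SurfaceGroup Γ → IsProbabilityMeasure μ → (∀ t, μ.map (fl Γ t) = μ) → 0 ≤ a → a < 1 / 2 → 0 < η → a + η ≤ 1 → h + η < 1 → 0 ≤ β → Even G → 2 ≤ G →
  3 * a + h - 1 + 8 * η + 24 / (G : ℝ) < β → CO Γ μ E h → FF Γ μ a η G (E \ Low Γ μ β)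

/-- the chain (FCH with FGD5): `a < 1/3`, all `h < 1` -/
def FCH5_stmt : Prop := ∀ a h : ℝ, 0 ≤ a → a < 1 / 3 → 0 ≤ h → h < 1 → ∃ (η : ℝ) (G : ℕ), 0 < η ∧ 1 ≤ G ∧
  ∀ (Γ : Subgroup SL(2, ℝ)) (μ : Measure (XG Γ)) (E : Set (XG Γ)), QU.SurfaceGroup Γ → IsProbabilityMeasure μ → (∀ t, μ.map (fl Γ t) = μ) → CO Γ μ E h → FF Γ μ a η G E

/-- the theorem for a measure with the property GP and an invariant set `E` covered by few boxes (LPM with FCH5) -/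
def LPM5_stmt : Prop := ∀ (Γ : Subgroup SL(2, ℝ)) (μ : Measure (XG Γ)) (K a h : ℝ) (E : Set (XG Γ)), QU.SurfaceGroup Γ → IsProbabilityMeasure μ → (∀ t, μ.map (fl Γ t) = μ) → 1 ≤ K → IR.GP Γ μ K → 0 ≤ a → a < 1 / 3 → 0 ≤ h → h < 1 →
  CO Γ μ E h → μ.real E + μ.real (Low Γ μ a) ≤ 1

/-- the uniform part (UPA with LPM5) -/
def UPA5_stmt : Prop := ∀ (Γ : Subgroup SL(2, ℝ)) (F : Set ℍ) (μ : Measure (XG Γ)) (K a : ℝ) (V : MG Γ → ℝ), QU.SurfaceGroup Γ → QU.NiceDom Γ F → IsProbabilityMeasure μ → (∀ t, μ.map (fl Γ t) = μ) → 1 ≤ K → IR.GP Γ μ K → 0 ≤ a → a < 1 / 3 → Continuous V → (∀ y, 0 ≤ V y ∧ V y ≤ 1) →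
  μ.real (Low Γ μ a) * ((∫ z in F, V (mkM Γ z)) / (volume F).toReal) ≤ ∫ x, V (pr Γ x) ∂μ

end

end Pool.Agent.LP5
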