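import Pool.Agent.helper98.LP5.Spec5
import Pool.Agent.helper27.LP.UPA

/-!
# LP5: the uniform part
-/

open scoped MatrixGroups ContDiff Topology UpperHalfPlane ComplexConjugate
open UpperHalfPlane MeasureTheory Filter Set

set_option autoImplicit false

namespace Pool.Agent.LP5

open Pool.Agent.LP (LDB_stmt MEV_stmt)

theorem UPA5_proof (hLPM5 : LPM5_stmt) (hLDB : LDB_stmt) (hMEV : MEV_stmt) (hXFL : EN.XFL_stmt) : UPA5_stmt := by
  intro Γ F μ K a V hΓ hF hμ hinv hK hGP ha0 ha1 hV hV01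
  refine Pool.Agent.LP.UPA_core hLDB hMEV hXFL Γ F μ a V hΓ hF hμ hinv ?_ hV hV01
  intro h E h0 h1 hCO
  exact hLPM5 Γ μ K a h E hΓ hμ hinv hK hGP ha0 ha1 h0 h1 hCO

end Pool.Agent.LP5
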